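import Mathlib

set_option autoImplicit false

/-!
# A parity law for plateaued vectorial Boolean functions

Let `F : F_2^n → F_2^m` be plateaued.  For a point `p` of `F_2^n × F_2^m` let `mult F p` be the
number of 3-subsets of the graph of `F` with sum `p`.  If `m < n`, or `m = n ≥ 3`, then
`mult F (a, b) + mult F (a, F a)` is odd for all `b ≠ F a`; for all other `n, m` with `m ≥ 1` this
fails for some plateaued `F`.
-/

namespace Pool.Agent.Results.MP_b298ef_co.ParityLaw

open Finset

/-- the space `F_2^n` -/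
abbrev V (n : ℕ) := Fin n → ZMod 2

variable {n m : ℕ}

/-- almost perfect nonlinear functions `F_2^n → F_2^m` -/
def APN (F : V n → V m) : Prop :=
  ∀ a ≠ 0, ∀ b, (univ.filter (fun x => F x + F (x + a) = b)).card = 0 ∨
    (univ.filter (fun x => F x + F (x + a) = b)).card = 2

/-- the Walsh transform -/
def W (F : V n → V m) (u : V n) (v : V m) : ℤ := ∑ x, (-1) ^ (v ⬝ᵥ F x + u ⬝ᵥ x).val

/-- plateaued functions -/
def Plateaued (F : V n → V m) : Prop :=
  ∀ v ≠ 0, ∃ l : ℝ, 0 ≤ l ∧ ∀ u, (W F u v : ℝ) = 0 ∨ (W F u v : ℝ) = l ∨ (W F u v : ℝ) = -l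

/-- number of 3-element subsets of the graph of `F` with sum `p`; for `p` outside of the graph this
is the exclude multiplicity of `p` -/
def mult (F : V n → V m) (p : V n × V m) : ℕ :=
  (((univ.image (fun x => (x, F x))).powersetCard 3).filter (fun s => ∑ q ∈ s, q = p)).card

def e (u w : V n) : ℤ := (-1) ^ (u ⬝ᵥ w).val

theorem chi : ∀ s t : ZMod 2, (-1 : ℤ) ^ (s + t).val = (-1) ^ s.val * (-1) ^ t.val := by decide

theorem e_add (u w w' : V n) : e u (w + w') = e u w * e u w' := by
  simp only [e, dotProduct_add, chi]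

theorem self_add (x : V n) : x + x = 0 := by
  ext i; exact CharTwo.add_self_eq_zero _

theorem eq_iff (x y : V n) : x + y = 0 ↔ y = x := by
  rw [add_eq_zero_iff_neg_eq, eq_comm, neg_eq_of_add_eq_zero_left (self_add x)]

theorem e_sq (u w : V n) : e u w * e u w = 1 := by
  rw [← e_add, self_add]; simp [e]

theorem orth (w : V n) : ∑ u, e u w = if w = 0 then 2 ^ n else 0 := by
  split_ifs with h
  · simp [h, e]
  · obtain ⟨i, hi⟩ := Function.ne_iff.1 h
    have h1 : w i = 1 := by
      have : ∀ t : ZMod 2, t ≠ 0 → t = 1 := by decide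
      exact this _ hi
    have := Equiv.sum_comp (Equiv.addRight (Pi.single i (1 : ZMod 2) : V n)) (fun u => e u w)
    simp only [Equiv.coe_addRight, e, add_dotProduct, chi, single_dotProduct, h1, one_mul,
      ← sum_mul] at this ⊢
    have h2 : (-1 : ℤ) ^ (1 : ZMod 2).val = -1 := by decide
    rw [h2] at this
    linarith

theorem W_eq (F : V n → V m) (u : V n) (v : V m) : W F u v = ∑ x, e v (F x) * e u x := by
  simp only [W, chi, e]

/-- Fourier transform times a function -/
theorem conv (g : V n → ℤ) (a : V n) : ∑ u, (∑ x, g x * e u x) * e u a = 2 ^ n * g a := by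
  simp only [sum_mul, mul_assoc, ← e_add]
  rw [sum_comm]
  simp only [← mul_sum, orth, add_comm _ a, eq_iff]
  simp [mul_comm]

theorem parseval (F : V n → V m) (v : V m) : ∑ u, W F u v ^ 2 = 2 ^ n * 2 ^ n := by
  have : ∀ u, W F u v ^ 2 = ∑ a, e v (F a) * (W F u v * e u a) := by
    intro u
    rw [sq]; nth_rewrite 2 [W_eq]
    rw [mul_sum]; exact sum_congr rfl (fun _ _ => by ring)
  simp only [this]
  rw [sum_comm]
  simp only [← mul_sum, W_eq, conv, mul_left_comm _ ((2 : ℤ) ^ n), e_sq]
  simp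

theorem cube (F : V n → V m) (v : V m) (a : V n) : ∑ u, W F u v ^ 3 * e u a =
    2 ^ n * ∑ x, ∑ y, e v (F x + F y + F (a + x + y)) := by
  have : ∀ u, W F u v ^ 3 * e u a =
      ∑ x, ∑ y, e v (F x) * e v (F y) * (W F u v * e u (a + x + y)) := by
    intro u
    rw [pow_succ, sq]; nth_rewrite 1 [W_eq]; nth_rewrite 1 [W_eq]
    rw [sum_mul_sum, sum_mul, sum_mul]
    refine sum_congr rfl (fun _ _ => ?_)
    rw [sum_mul, sum_mul]
    exact sum_congr rfl (fun _ _ => by simp only [e_add]; ring)
  simp only [this]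
  rw [sum_comm, mul_sum]
  refine sum_congr rfl (fun x _ => ?_)
  rw [sum_comm, mul_sum]
  refine sum_congr rfl (fun y _ => ?_)
  rw [← mul_sum]
  simp only [W_eq, conv, e_add v]; ring

theorem amp (F : V n → V m) (h : Plateaued F) (v : V m) : ∃ μ : ℤ,
    (∀ u, W F u v ^ 3 = 2 ^ n * μ * W F u v) ∧ (Odd n → Even μ) ∧
    ∀ k, n = k + k → ∃ w, W F 0 v = 2 ^ k * w ∧ Even (w - μ) := by
  have hp := parseval F v
  obtain ⟨u0, h0⟩ : ∃ u0, W F u0 v ≠ 0 := by
    by_contra hn
    push Not at hn
    simp [hn] at hp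
  obtain ⟨l, hl⟩ : ∃ l : ℕ, ∀ u, W F u v = 0 ∨ W F u v = l ∨ W F u v = -l := by
    by_cases hv : v = 0
    · refine ⟨2 ^ n, fun u => ?_⟩
      have := orth u
      simp only [e, dotProduct_comm _ u] at this
      simp only [W, hv, zero_dotProduct, zero_add, this]
      split_ifs <;> simp
    · obtain ⟨l, -, hl⟩ := h v hv
      refine ⟨(W F u0 v).natAbs, fun u => ?_⟩
      have : W F u v = 0 ∨ W F u v = W F u0 v ∨ W F u v = - W F u0 v := by
        have h0' : (W F u0 v : ℝ) ≠ 0 := by exact_mod_cast h0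
        have : (W F u v : ℝ) = 0 ∨ (W F u v : ℝ) = W F u0 v ∨ (W F u v : ℝ) = - W F u0 v := by
          rcases hl u0 with a | a | a <;> rcases hl u with b | b | b <;> simp_all
        exact_mod_cast this
      omega
  set s := (univ.filter (fun u => W F u v ≠ 0)).card with hs
  have h1 : l ^ 2 * s = (2 ^ n) ^ 2 := by
    have : ∑ u, W F u v ^ 2 = ∑ u, (l : ℤ) ^ 2 * (if W F u v ≠ 0 then 1 else 0) :=
      sum_congr rfl (fun u _ => by
        by_cases z : W F u v = 0
        · simp [z]
        · rcases hl u with a | a | a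
          · exact absurd a z
          · rw [if_pos z, a]; ring
          · rw [if_pos z, a]; ring)
    rw [this, ← mul_sum, sum_boole, ← sq] at hp
    exact_mod_cast hp
  have h2 : s ≤ 2 ^ n := (card_le_univ _).trans (by simp)
  obtain ⟨j, -, rfl⟩ := (Nat.dvd_prime_pow Nat.prime_two).1
    ((Nat.pow_dvd_pow_iff two_ne_zero).1 (Dvd.intro _ h1))
  obtain ⟨t, ht⟩ : ∃ t, j + j = n + t := by
    have : 2 ^ n * 2 ^ n ≤ 2 ^ (j + j) * 2 ^ n := by
      rw [← sq, ← h1, pow_add, ← sq]; exact Nat.mul_le_mul_left _ h2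
    have := (Nat.pow_le_pow_iff_right (by norm_num)).1 (Nat.le_of_mul_le_mul_right this (by positivity))
    exact ⟨j + j - n, by omega⟩
  push_cast at hl
  refine ⟨2 ^ t, fun u => ?_, fun ho => ?_, fun k hk => ?_⟩
  · rw [← pow_add, ← ht, pow_add]
    rcases hl u with a | a | a <;> rw [a] <;> ring
  · exact even_two.pow_of_ne_zero (by rintro rfl; obtain ⟨_, _⟩ := ho; omega)
  · obtain ⟨r, rfl⟩ : ∃ r, j = k + r := ⟨j - k, by omega⟩
    rcases Nat.eq_zero_or_pos r with rfl | hr
    · obtain rfl : t = 0 := by omega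
      have : s = 2 ^ n := by
        rw [← pow_mul, show (k + 0) * 2 = n by omega, sq] at h1
        exact Nat.eq_of_mul_eq_mul_left (by positivity) h1
      have hall : univ.filter (fun u => W F u v ≠ 0) = univ :=
        eq_univ_of_card _ (by rw [← hs, this]; simp)
      have z := (mem_filter.1 (hall.ge (mem_univ 0))).2
      rcases hl 0 with a | a | a
      · exact absurd a z
      · exact ⟨1, by simp [a], by simp⟩
      · exact ⟨-1, by simp [a], by decide⟩
    · have a1 : Even ((2 : ℤ) ^ r) := even_two.pow_of_ne_zero (by omega)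
      have a2 : Even ((2 : ℤ) ^ t) := even_two.pow_of_ne_zero (by omega)
      rcases hl 0 with a | a | a
      · exact ⟨0, by simp [a], Even.zero.sub a2⟩
      · exact ⟨2 ^ r, by rw [a, pow_add], a1.sub a2⟩
      · exact ⟨-2 ^ r, by rw [a, pow_add]; ring, a1.neg.sub a2⟩

/-- all pairs `x, y` such that `(x, F x)`, `(y, F y)` and a third point of the graph sum to `(a, b)` -/
def T (F : V n → V m) (a : V n) (b : V m) : Finset (V n × V n) :=
  univ.filter (fun p => F p.1 + F p.2 + F (a + p.1 + p.2) = b)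

/-- the pairs of `T` with three distinct points -/
def T' (F : V n → V m) (a : V n) (b : V m) : Finset (V n × V n) :=
  (T F a b).filter (fun p => p.1 ≠ p.2 ∧ p.1 ≠ a ∧ p.2 ≠ a)

theorem T_card (F : V n → V m) (a : V n) (b : V m) : ((T F a b).card : ℤ) =
    ∑ x, ∑ y, if F x + F y + F (a + x + y) = b then 1 else 0 := by
  rw [T, card_filter, ← univ_product_univ, sum_product]; simp

/-- the degenerate pairs -/
def D (a : V n) : Finset (V n × V n) := univ.filter (fun p => p.1 = p.2 ∨ p.1 = a ∨ p.2 = a)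

theorem D_card (a : V n) : ((D a).card : ℤ) = 3 * 2 ^ n - 2 := by
  have h : ((D a).card : ℤ) = ∑ x : V n, ∑ y : V n, if x = y ∨ x = a ∨ y = a then 1 else 0 := by
    rw [D, card_filter, ← univ_product_univ, sum_product]; simp
  rw [h, ← add_sum_erase _ _ (mem_univ a), sum_congr (s₁ := univ.erase a) rfl (g := fun _ => (2 : ℤ))]
  · simp [card_erase_of_mem, Nat.one_le_two_pow]; ring
  · intro x hx
    have hx' := ne_of_mem_erase hx
    rw [sum_boole]
    have : univ.filter (fun y => x = y ∨ x = a ∨ y = a) = {x, a} := by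
      ext y; simp [hx', eq_comm]
    rw [this, card_pair hx']; rfl

theorem T_split (F : V n → V m) (a : V n) (b : V m) : ((T F a b).card : ℤ) =
    (T' F a b).card + if b = F a then 3 * 2 ^ n - 2 else 0 := by
  have h1 := card_filter_add_card_filter_not (s := T F a b) (fun p => p.1 ≠ p.2 ∧ p.1 ≠ a ∧ p.2 ≠ a)
  have h2 : (T F a b).filter (fun p => ¬ (p.1 ≠ p.2 ∧ p.1 ≠ a ∧ p.2 ≠ a)) =
      if b = F a then D a else ∅ := by
    have key : ∀ p : V n × V n, ¬ (p.1 ≠ p.2 ∧ p.1 ≠ a ∧ p.2 ≠ a) →
        F p.1 + F p.2 + F (a + p.1 + p.2) = F a := by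
      rintro ⟨x, y⟩ h
      simp only at h ⊢
      by_cases c1 : x = y
      · subst c1; rw [self_add, zero_add, add_assoc, self_add, add_zero]
      by_cases c2 : x = a
      · subst c2; rw [self_add, zero_add, add_assoc, self_add, add_zero]
      · have c3 : y = a := by_contra fun c3 => h ⟨c1, c2, c3⟩
        subst c3
        have e1 : y + x + y = x := by rw [add_right_comm, self_add, zero_add]
        rw [e1, add_right_comm, self_add, zero_add]
    ext p
    split_ifs with hb
    · subst hb
      simp only [T, D, mem_filter, mem_univ, true_and]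
      refine ⟨fun h => ?_, fun h => ?_⟩
      · have := h.2; tauto
      · have h' : ¬ (p.1 ≠ p.2 ∧ p.1 ≠ a ∧ p.2 ≠ a) := by tauto
        exact ⟨key p h', h'⟩
    · simp only [T, mem_filter, mem_univ, true_and, notMem_empty, iff_false]
      rintro ⟨h, h'⟩
      exact hb (h.symm.trans (key p h'))
  rw [h2] at h1
  rw [← h1, T']
  split_ifs
  · push_cast; rw [D_card]
  · simp

theorem T_six (F : V n → V m) (a : V n) (b : V m) : (T' F a b).card = 6 * mult F (a, b) := by
  have d1 : ∀ p ∈ T' F a b, p.1 ≠ p.2 ∧ p.1 ≠ a + p.1 + p.2 ∧ p.2 ≠ a + p.1 + p.2 := by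
    rintro ⟨x, y⟩ hp
    simp only [T', mem_filter] at hp
    refine ⟨hp.2.1, fun z => hp.2.2.2 ?_, fun z => hp.2.2.1 ?_⟩
    · rw [← eq_iff]; linear_combination (exp := 1) -z
    · rw [← eq_iff]; linear_combination (exp := 1) -z
  rw [mult, mul_comm, ← smul_eq_mul, ← sum_const]
  rw [card_eq_sum_card_fiberwise (f := fun p => ({(p.1, F p.1), (p.2, F p.2),
    (a + p.1 + p.2, F (a + p.1 + p.2))} : Finset (V n × V m)))]
  · refine sum_congr rfl (fun s hs => ?_)
    simp only [mem_filter, mem_powersetCard] at hs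
    obtain ⟨⟨s1, s2⟩, s3⟩ := hs
    have g : ∀ q ∈ s, (q.1, F q.1) = q := fun q hq => by
      obtain ⟨x, -, rfl⟩ := mem_image.1 (s1 hq); rfl
    rw [show 6 = s.offDiag.card by rw [offDiag_card, s2]]
    refine card_nbij' (fun p => ((p.1, F p.1), (p.2, F p.2))) (fun q => (q.1.1, q.2.1)) ?_ ?_
      (fun _ _ => rfl) (fun q hq => ?_)
    · intro p hp
      simp only [coe_filter, Set.mem_ofPred_eq] at hp
      rw [mem_coe, mem_offDiag, ← hp.2]
      exact ⟨by simp, by simp, fun z => (d1 p hp.1).1 (congrArg Prod.fst z)⟩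
    · rintro ⟨p, q⟩ hq
      obtain ⟨q1, q2, q3⟩ := mem_offDiag.1 (mem_coe.1 hq)
      have c1 : ((s.erase p).erase q).card = 1 := by
        rw [card_erase_of_mem (mem_erase.2 ⟨q3.symm, q2⟩), card_erase_of_mem q1, s2]
      obtain ⟨r, hr⟩ := card_eq_one.1 c1
      have q4 : q ∈ s.erase p := mem_erase.2 ⟨q3.symm, q2⟩
      have hr0 : r ∈ (s.erase p).erase q := hr.ge (mem_singleton_self r)
      have hr' : r ∈ s := mem_of_mem_erase (mem_of_mem_erase hr0)
      have hrq : r ≠ q := ne_of_mem_erase hr0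
      have hrp : r ≠ p := ne_of_mem_erase (mem_of_mem_erase hr0)
      rw [← add_sum_erase _ _ q1, ← add_sum_erase _ _ q4, hr, sum_singleton] at s3
      have f1 := congrArg Prod.fst s3
      simp only [Prod.fst_add] at f1
      have r1 : a + p.1 + q.1 = r.1 := by
        rw [← f1]
        linear_combination (exp := 1) self_add p.1 + self_add q.1
      have inj : ∀ x ∈ s, ∀ y ∈ s, x.1 = y.1 → x = y := fun x hx y hy hxy => by
        rw [← g x hx, ← g y hy, hxy]
      simp only [coe_filter, Set.mem_ofPred_eq, T', T, mem_filter, mem_univ, true_and, r1, g p q1,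
        g q q2, g r hr']
      refine ⟨⟨?_, fun z => q3 (inj _ q1 _ q2 z), fun z => hrq ?_, fun z => hrp ?_⟩,
        by rw [← hr, insert_erase q4, insert_erase q1]⟩
      · have := congrArg Prod.snd s3
        rw [← g p q1, ← g q q2, ← g r hr'] at this
        simpa [add_assoc] using this
      · refine inj _ hr' _ q2 ?_
        rw [← r1, z, self_add, zero_add]
      · refine inj _ hr' _ q1 ?_
        rw [← r1, z, add_right_comm, self_add, zero_add]
    · obtain ⟨q1, q2, -⟩ := mem_offDiag.1 (mem_coe.1 hq)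
      simp only [g _ q1, g _ q2]
  · intro p hp
    obtain ⟨a1, a2, a3⟩ := d1 p hp
    simp only [T', T, coe_filter, mem_filter, mem_univ, true_and, Set.mem_ofPred_eq] at hp
    simp only [coe_filter, Set.mem_ofPred_eq, mem_powersetCard]
    refine ⟨⟨fun q hq => ?_, card_eq_three.2 ⟨_, _, _, by simp [a1], by simp only [Ne, Prod.mk.injEq, a2]; simp,
      by simp only [Ne, Prod.mk.injEq, a3]; simp, rfl⟩⟩, ?_⟩
    · simp only [mem_insert, mem_singleton] at hq
      rcases hq with rfl | rfl | rfl <;> simp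
    · rw [sum_insert (by simp only [mem_insert, mem_singleton, Prod.mk.injEq, a1, a2]; simp),
        sum_pair (by simp only [Ne, Prod.mk.injEq, a3]; simp)]
      refine Prod.ext ?_ (by simpa [add_assoc] using hp.1)
      simp only [Prod.fst_add]
      linear_combination (exp := 1) self_add p.1 + self_add p.2

/-- the number of `T` through Walsh coefficients; then the 2-adic congruence -/
theorem law (F : V n → V m) (h2 : Plateaued F) (hm : 1 ≤ m) (a : V n) (b : V m)
    (hb : b ≠ F a) : ∃ S : ℤ, 2 ^ m * (6 * ((mult F (a, F a) : ℤ) - mult F (a, b)) + 3 * 2 ^ n - 2) =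
      2 ^ (n + 1) * S ∧ ((Odd n ∨ n + 4 ≤ 2 * m) → Even S) := by
  choose μ m1 m2 m3 using amp F h2
  have hN : (2 : ℤ) ^ n ≠ 0 := by positivity
  have key : ∀ c, 2 ^ m * ((T F a c).card : ℤ) = 2 ^ n * ∑ v, μ v * e v (F a + c) := by
    intro c
    have k1 : ∀ v, 2 ^ n * (μ v * e v (F a)) = ∑ x, ∑ y, e v (F x + F y + F (a + x + y)) := by
      intro v
      refine mul_left_cancel₀ hN ?_
      rw [← cube]
      simp only [m1, mul_assoc, ← mul_sum]
      simp only [W_eq, conv]; ring
    simp only [mul_sum, e_add, ← mul_assoc _ _ (e _ c), k1, sum_mul, T_card]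
    symm
    rw [sum_comm]
    refine sum_congr rfl (fun x _ => ?_)
    rw [sum_comm]
    refine sum_congr rfl (fun y _ => ?_)
    simp only [← e_add, orth, eq_iff, eq_comm (a := c)]
    split_ifs <;> simp
  let t : V m → ℤ := fun v => (v ⬝ᵥ (F a + b)).val
  have ht : ∀ v, e v (F a + b) = 1 - 2 * t v := fun v => by
    have : ∀ s : ZMod 2, (-1 : ℤ) ^ s.val = 1 - 2 * (s.val : ℤ) := by decide
    exact this _
  refine ⟨∑ v, μ v * t v, ?_, ?_⟩
  · have k0 := key (F a)
    have k1 := key b
    rw [T_split, T_six, if_pos rfl, self_add] at k0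
    rw [T_split, T_six, if_neg hb] at k1
    simp only [ht, mul_sub, sum_sub_distrib, mul_one, mul_left_comm _ (2 : ℤ), ← mul_sum] at k1
    simp only [e, dotProduct_zero, ZMod.val_zero, pow_zero, mul_one] at k0
    push_cast at k0 k1
    rw [pow_succ]
    linear_combination k0 - k1
  · rintro (ho | hnm)
    · exact even_sum _ (fun v _ => (m2 v ho).mul_right _)
    · rcases Nat.even_or_odd n with ⟨k, hk⟩ | ho
      · choose w w1 w2 using fun v => m3 v k hk
        obtain ⟨K, hK⟩ : (2 : ℤ) ^ m ∣ ∑ v, W F 0 v * (1 - e v (F a + b)) := by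
          simp only [W_eq, sum_mul]
          rw [sum_comm]
          refine dvd_sum (fun x _ => ?_)
          have z : e 0 x = 1 := by simp [e]
          simp only [z, mul_sub, mul_one, ← e_add, sum_sub_distrib, orth]
          refine dvd_sub ?_ ?_ <;> split_ifs <;> simp
        obtain ⟨i, rfl⟩ : ∃ i, m = k + 2 + i := ⟨m - k - 2, by omega⟩
        have : ∑ v, w v * t v = 2 * (2 ^ i * K) := by
          refine mul_left_cancel₀ (show (2 : ℤ) ^ k * 2 ≠ 0 by positivity) ?_
          rw [show (2 : ℤ) ^ k * 2 * (2 * (2 ^ i * K)) = 2 ^ (k + 2 + i) * K by ring, ← hK, mul_sum]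
          exact sum_congr rfl (fun v _ => by rw [w1, ht]; ring)
        have e2 : Even (∑ v, (w v - μ v) * t v) := even_sum _ (fun v _ => (w2 v).mul_right _)
        simp only [sub_mul, sum_sub_distrib, this] at e2
        simpa [Int.even_sub] using e2
      · exact even_sum _ (fun v _ => (m2 v ho).mul_right _)

/-! ### The sharpness examples -/

theorem char_sum (R : Finset (V n)) (ψ : V n → ℤ) (z0 : V n)
    (hR : ∀ z ∈ R, z0 + z ∈ R) (hψ : ∀ z ∈ R, ψ (z0 + z) = -ψ z) : ∑ z ∈ R, ψ z = 0 := by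
  have h : ∑ z ∈ R, ψ z = ∑ z ∈ R, ψ (z0 + z) := by
    refine sum_nbij' (fun z => z0 + z) (fun z => z0 + z) hR hR ?_ ?_ ?_
    · intro z _; rw [← add_assoc, self_add, zero_add]
    · intro z _; rw [← add_assoc, self_add, zero_add]
    · intro z _; rw [← add_assoc, self_add, zero_add]
  rw [sum_congr rfl hψ, sum_neg_distrib] at h
  linarith

theorem e_one (u w : V n) : e u w = 1 ∨ e u w = -1 := by
  have : ∀ s : ZMod 2, (-1 : ℤ) ^ s.val = 1 ∨ (-1 : ℤ) ^ s.val = -1 := by decide
  exact this _

/-- functions of algebraic degree at most two are plateaued -/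
theorem quad (F : V n → V m) (h : ∀ x y z, F (x + y + z) = F (x + y) + F (x + z) + F (y + z) +
    (F x + F y + F z)) (h0 : F 0 = 0) : Plateaued F := by
  classical
  intro v _
  let g : V n → V n → ℤ := fun z x => e v (F x + F (x + z) + F z)
  have gadd : ∀ z x y, g z (x + y) = g z x * g z y := fun z x y => by
    simp only [g, ← e_add]
    congr 1
    rw [h x y z]
    linear_combination (exp := 1) self_add (F (x + y))
  have gz0 : ∀ z, g z 0 = 1 := fun z => by
    simp only [g, h0, zero_add, self_add]; simp [e]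
  have gsymm : ∀ z x, g z x = g x z := fun z x => by
    simp only [g]; rw [add_comm x z]; congr 1; abel
  let R : Finset (V n) := univ.filter (fun z => ∀ x, g z x = 1)
  have gsum : ∀ z, ∑ x, g z x = if z ∈ R then 2 ^ n else 0 := by
    intro z
    split_ifs with hz
    · have hz' : ∀ x, g z x = 1 := (mem_filter.1 hz).2
      simp [hz']
    · have : ∃ x, g z x ≠ 1 := by
        by_contra hc; push Not at hc
        exact hz (mem_filter.2 ⟨mem_univ _, hc⟩)
      obtain ⟨x0, hx0⟩ := this
      have hx1 : g z x0 = -1 := (e_one _ _).resolve_left hx0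
      refine char_sum univ _ x0 (fun _ _ => mem_univ _) (fun x _ => ?_)
      rw [gadd, hx1]; ring
  have Radd : ∀ z ∈ R, ∀ y ∈ R, z + y ∈ R := by
    intro z hz y hy
    refine mem_filter.2 ⟨mem_univ _, fun x => ?_⟩
    rw [gsymm, gadd, gsymm, (mem_filter.1 hz).2 x, gsymm, (mem_filter.1 hy).2 x, one_mul]
  have sqW : ∀ u, W F u v ^ 2 = 2 ^ n * ∑ z ∈ R, e v (F z) * e u z := by
    intro u
    have h1 : W F u v ^ 2 = ∑ z, ∑ x, (e v (F z) * e u z) * g z x := by
      rw [sq, W_eq, sum_mul_sum, sum_comm]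
      have : ∀ x : V n, ∑ y, (e v (F y) * e u y) * (e v (F x) * e u x) =
          ∑ z, (e v (F z) * e u z) * g z x := by
        intro x
        rw [← Equiv.sum_comp (Equiv.addLeft x)]
        refine sum_congr rfl fun z _ => ?_
        simp only [Equiv.coe_addLeft, g, e_add]
        have a1 := e_sq u x
        have a2 := e_sq v (F z)
        linear_combination (e v (F x) * e v (F (x + z)) * e u z) * (a1 - a2)
      rw [sum_congr rfl fun x _ => this x, sum_comm]
    rw [h1]
    simp only [← mul_sum, gsum, mul_ite, mul_zero]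
    rw [sum_ite_mem, univ_inter, mul_sum]
    exact sum_congr rfl fun z _ => by ring
  have two : ∀ u, ∑ z ∈ R, e v (F z) * e u z = 0 ∨ ∑ z ∈ R, e v (F z) * e u z = R.card := by
    intro u
    by_cases hc : ∃ z0 ∈ R, e v (F z0) * e u z0 = -1
    · obtain ⟨z0, hz0, hc⟩ := hc
      left
      refine char_sum R _ z0 (Radd z0 hz0) (fun z hz => ?_)
      have a1 : e v (F z0 + F (z0 + z) + F z) = 1 := (mem_filter.1 hz).2 z0
      simp only [e_add] at a1 ⊢
      have a2 := e_sq v (F z0)
      have a3 := e_sq v (F z)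
      have a4 : e v (F (z0 + z)) = e v (F z0) * e v (F z) := by
        linear_combination (e v (F z0) * e v (F z)) * a1 - e v (F (z0 + z)) * (e v (F z) * e v (F z)) * a2
          - e v (F (z0 + z)) * a3
      rw [a4]
      linear_combination (e v (F z) * e u z) * hc
    · right
      push Not at hc
      have : ∀ z ∈ R, e v (F z) * e u z = 1 := fun z hz => by
        have := hc z hz
        rcases e_one v (F z) with b | b <;> rcases e_one u z with c | c <;> simp_all
      rw [sum_congr rfl this]; simp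
  refine ⟨√((2 : ℝ) ^ n * R.card), Real.sqrt_nonneg _, fun u => ?_⟩
  have hl : √((2 : ℝ) ^ n * R.card) ^ 2 = (2 : ℝ) ^ n * R.card := Real.sq_sqrt (by positivity)
  rcases two u with c | c
  · left
    have : W F u v ^ 2 = 0 := by rw [sqW, c, mul_zero]
    have : W F u v = 0 := by simpa using this
    exact_mod_cast this
  · right
    have h1 : W F u v ^ 2 = 2 ^ n * (R.card : ℤ) := by rw [sqW, c]
    have h2 : (W F u v : ℝ) ^ 2 = √((2 : ℝ) ^ n * R.card) ^ 2 := by
      rw [hl]; exact_mod_cast h1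
    exact sq_eq_sq_iff_eq_or_eq_neg.1 h2

theorem T'_empty {F : V n → V m} {a : V n} {b : V m}
    (h : ∀ x y, x ≠ y → x ≠ a → y ≠ a → F x + F y + F (a + x + y) ≠ b) : mult F (a, b) = 0 := by
  have h1 : T' F a b = ∅ := by
    refine eq_empty_of_forall_notMem fun p hp => ?_
    simp only [T', T, mem_filter, mem_univ, true_and] at hp
    exact h _ _ hp.2.1 hp.2.2.1 hp.2.2.2 hp.1
  have h2 := T_six F a b
  rw [h1, card_empty] at h2
  omega

theorem apn_mult {F : V n → V m} (h : APN F) (a : V n) : mult F (a, F a) = 0 := by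
  refine T'_empty fun x y hxy hx hy he => ?_
  have hd : x + a ≠ 0 := by rw [Ne, eq_iff]; exact fun c => hx c.symm
  have key : ({x, a, y} : Finset (V n)) ⊆ univ.filter (fun z => F z + F (z + (x + a)) = F x + F a) := by
    intro z hz
    simp only [mem_insert, mem_singleton] at hz
    rw [mem_filter]
    refine ⟨mem_univ _, ?_⟩
    rcases hz with rfl | rfl | rfl
    · rw [← add_assoc, self_add, zero_add]
    · rw [add_comm x, ← add_assoc, self_add, zero_add, add_comm]
    · rw [show z + (x + a) = a + x + z by abel, ← he]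
      linear_combination (exp := 1) -(self_add (F x))
  have c := card_le_card key
  rw [card_insert_of_notMem (by simp [hx, hxy]), card_pair (Ne.symm hy)] at c
  rcases h _ hd (F x + F a) with d | d <;> omega

theorem cube_apn (φ : GaloisField 2 n ≃ₗ[ZMod 2] V n) (L : GaloisField 2 n →ₗ[ZMod 2] V m)
    (hL : Function.Injective L) : APN (fun x => L ((φ.symm x) ^ 3)) ∧
      Plateaued (fun x => L ((φ.symm x) ^ 3)) := by
  have h2 : (2 : GaloisField 2 n) = 0 := CharTwo.two_eq_zero
  constructor
  · intro a ha b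
    by_cases hne : ∃ x0, L ((φ.symm x0) ^ 3) + L ((φ.symm (x0 + a)) ^ 3) = b
    · right
      obtain ⟨x0, hx0⟩ := hne
      have : univ.filter (fun x => L ((φ.symm x) ^ 3) + L ((φ.symm (x + a)) ^ 3) = b) =
          {x0, x0 + a} := by
        ext x
        simp only [mem_filter, mem_univ, true_and, mem_insert, mem_singleton]
        rw [← hx0, ← map_add, ← map_add, hL.eq_iff]
        constructor
        · intro hx
          simp only [map_add] at hx
          have ha' : φ.symm a ≠ 0 := by simpa using ha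
          have h3 : φ.symm a * ((φ.symm x + φ.symm x0) * (φ.symm x + φ.symm x0 + φ.symm a)) = 0 := by
            linear_combination hx + (φ.symm a * (φ.symm x * φ.symm x0 + φ.symm x0 ^ 2 + φ.symm x0 * φ.symm a)
              - φ.symm x ^ 3 - φ.symm x ^ 2 * φ.symm a - φ.symm x * φ.symm a ^ 2 + φ.symm x0 ^ 3
              + φ.symm x0 ^ 2 * φ.symm a + φ.symm x0 * φ.symm a ^ 2) * h2
          rcases mul_eq_zero.1 ((mul_eq_zero.1 h3).resolve_left ha') with c | c
          · left
            rw [← map_add] at c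
            have := φ.symm.map_eq_zero_iff.1 c
            exact (eq_iff _ _).1 (by rw [add_comm]; exact this)
          · right
            rw [← map_add, ← map_add] at c
            have := φ.symm.map_eq_zero_iff.1 c
            exact (eq_iff _ _).1 (by rw [← this]; abel)
        · rintro (rfl | rfl)
          · rfl
          · rw [add_assoc, self_add, add_zero, add_comm]
      rw [this, card_pair]
      intro c
      exact ha (by simpa using c)
    · left
      rw [card_eq_zero]
      refine eq_empty_of_forall_notMem fun x hx => hne ⟨x, (mem_filter.1 hx).2⟩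
  · refine quad _ (fun x y z => ?_) (by simp)
    have e1 : ∀ x y, φ.symm (x + y) = φ.symm x + φ.symm y := map_add _
    simp only [e1, ← map_add L]
    congr 1
    linear_combination (3 * φ.symm x * φ.symm y * φ.symm z - φ.symm x ^ 3 - φ.symm y ^ 3
      - φ.symm z ^ 3) * h2

/-- for `m > n`, and for `m = n = 2`, some plateaued APN function has an exclude multiplicity `0` -/
theorem ex1 (n m : ℕ) (hn : 1 ≤ n) (h : n < m ∨ (n = 2 ∧ m = 2)) :
    ∃ F : V n → V m, APN F ∧ Plateaued F ∧ ∃ b, b ≠ F 0 ∧ mult F (0, b) = 0 := by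
  have hfin : Module.finrank (ZMod 2) (GaloisField 2 n) = n := GaloisField.finrank 2 (by omega)
  let φ : GaloisField 2 n ≃ₗ[ZMod 2] V n :=
    LinearEquiv.ofFinrankEq _ _ (by rw [hfin, Module.finrank_fin_fun])
  rcases h with h | ⟨rfl, rfl⟩
  · let f : Fin m → Fin n := fun i => ⟨min i (n - 1), by omega⟩
    have hf : Function.Surjective f := fun j => ⟨⟨j, by omega⟩, by
      apply Fin.ext; simp only [f]; omega⟩
    let L : GaloisField 2 n →ₗ[ZMod 2] V m :=
      (LinearMap.funLeft (ZMod 2) (ZMod 2) f).comp φ.toLinearMap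
    have hL : Function.Injective L :=
      (LinearMap.funLeft_injective_of_surjective (ZMod 2) (ZMod 2) f hf).comp φ.injective
    have hLe : ∀ z, L z ⟨m - 1, by omega⟩ = L z ⟨n - 1, by omega⟩ := fun z => by
      have hff : f ⟨m - 1, by omega⟩ = f ⟨n - 1, by omega⟩ := Fin.ext (by simp only [f]; omega)
      change φ z (f _) = φ z (f _)
      rw [hff]
    obtain ⟨h1, h2⟩ := cube_apn φ L hL
    refine ⟨_, h1, h2, Pi.single ⟨m - 1, by omega⟩ 1, ?_, T'_empty fun x y _ _ _ he => ?_⟩
    · intro c
      have := congrFun c ⟨m - 1, by omega⟩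
      simp at this
    · have e1 := congrFun he ⟨m - 1, by omega⟩
      have e2 := congrFun he ⟨n - 1, by omega⟩
      simp only [Pi.add_apply, hLe] at e1 e2
      rw [e1, Pi.single_eq_same, Pi.single_eq_of_ne (by simp only [ne_eq, Fin.mk.injEq]; omega)] at e2
      exact one_ne_zero e2
  · have hK : ∀ x : V 2, x ≠ 0 → φ ((φ.symm x) ^ 3) = φ 1 := fun x hx => by
      have hx' : φ.symm x ≠ 0 := by simpa using hx
      have : Fintype (GaloisField 2 2) := Fintype.ofFinite _
      have hc : Fintype.card (GaloisField 2 2) = 4 := by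
        rw [← Nat.card_eq_fintype_card, GaloisField.card 2 2 (by norm_num)]; norm_num
      have := FiniteField.pow_card_sub_one_eq_one _ hx'
      rw [hc] at this
      rw [show (3 : ℕ) = 4 - 1 by norm_num, this]
    obtain ⟨b, hb0, hb1⟩ : ∃ b : V 2, b ≠ 0 ∧ b ≠ φ 1 := by
      have : ∀ c : V 2, ∃ b : V 2, b ≠ 0 ∧ b ≠ c := by decide
      exact this _
    obtain ⟨h1, h2⟩ := cube_apn φ φ.toLinearMap φ.injective
    refine ⟨_, h1, h2, b, ?_, T'_empty fun x y hxy hx hy he => ?_⟩
    · simpa using hb0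
    · simp only [LinearEquiv.coe_coe, zero_add] at he
      have hs : x + y ≠ 0 := by rw [Ne, eq_iff]; exact fun c => hxy c.symm
      rw [hK x hx, hK y hy, hK _ hs, self_add, zero_add] at he
      exact hb1 he.symm

/-- (1) A 2-adic law for plateaued functions `F : F_2^n → F_2^m`, `1 ≤ m ≤ n`: for `b ≠ F a` the
number `3 (m_F(a, b) - m_F(a, F a)) + 1 - 3 * 2 ^ (n - 1)` is divisible by `2 ^ (n - m)`, and by
`2 ^ (n - m + 1)` if `n` is odd or `2 m ≥ n + 4`.  (2) The parity law `m_F(a, b) + m_F(a, F a)` odd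
for all plateaued `F : F_2^n → F_2^m` and all `b ≠ F a` holds exactly if `m < n` or `m = n ≥ 3`.
(3) For `n ≥ 3`, all exclude multiplicities of all plateaued APN functions `F_2^n → F_2^m` are odd
exactly if `m ≤ n`; the case `m = n` is the question. -/
theorem result :
    (∀ n m : ℕ, 1 ≤ m → m ≤ n → ∀ F : V n → V m, Plateaued F → ∀ (a : V n) (b : V m), b ≠ F a →
      (2 : ℤ) ^ (n - m) ∣
        3 * ((mult F (a, b) : ℤ) - mult F (a, F a)) + 1 - 3 * 2 ^ (n - 1) ∧
      ((Odd n ∨ n + 4 ≤ 2 * m) → (2 : ℤ) ^ (n - m + 1) ∣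
        3 * ((mult F (a, b) : ℤ) - mult F (a, F a)) + 1 - 3 * 2 ^ (n - 1))) ∧
    (∀ n m : ℕ, 1 ≤ m →
      ((∀ F : V n → V m, Plateaued F → ∀ (a : V n) (b : V m), b ≠ F a →
        Odd (mult F (a, b) + mult F (a, F a))) ↔ (m < n ∨ (m = n ∧ 3 ≤ n)))) ∧
    (∀ n m : ℕ, 3 ≤ n →
      ((∀ F : V n → V m, APN F → Plateaued F → ∀ (a : V n) (b : V m), b ≠ F a →
        Odd (mult F (a, b))) ↔ m ≤ n)) := by
  have A : ∀ n m : ℕ, 1 ≤ m → m ≤ n → ∀ F : V n → V m, Plateaued F → ∀ (a : V n) (b : V m),
      b ≠ F a →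
      (2 : ℤ) ^ (n - m) ∣
        3 * ((mult F (a, b) : ℤ) - mult F (a, F a)) + 1 - 3 * 2 ^ (n - 1) ∧
      ((Odd n ∨ n + 4 ≤ 2 * m) → (2 : ℤ) ^ (n - m + 1) ∣
        3 * ((mult F (a, b) : ℤ) - mult F (a, F a)) + 1 - 3 * 2 ^ (n - 1)) := by
    intro n m hm hmn F hF a b hb
    obtain ⟨S, hS, hS'⟩ := law F hF hm a b hb
    have key : 3 * ((mult F (a, b) : ℤ) - mult F (a, F a)) + 1 - 3 * 2 ^ (n - 1) =
        2 ^ (n - m) * (-S) := by
      refine mul_left_cancel₀ (show (2 : ℤ) ^ (m + 1) ≠ 0 by positivity) ?_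
      obtain ⟨k, rfl⟩ := Nat.exists_eq_add_of_le hmn
      obtain ⟨j, rfl⟩ := Nat.exists_eq_add_of_le hm
      rw [show 1 + j + k - 1 = j + k by omega, show 1 + j + k - (1 + j) = k by omega]
      rw [show (2 : ℤ) ^ (1 + j + k) = 2 * 2 ^ (j + k) by ring] at hS
      linear_combination -hS
    refine ⟨⟨-S, key⟩, fun hc => ?_⟩
    obtain ⟨r, hr⟩ := hS' hc
    exact ⟨-r, by rw [key, hr]; ring⟩
  have B1 : ∀ n m : ℕ, 1 ≤ m → (m < n ∨ (m = n ∧ 3 ≤ n)) → ∀ F : V n → V m, Plateaued F →
      ∀ (a : V n) (b : V m), b ≠ F a → Odd (mult F (a, b) + mult F (a, F a)) := by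
    intro n m hm h F hF a b hb
    obtain ⟨h1, h2⟩ := A n m hm (by omega) F hF a b hb
    have h3 : (2 : ℤ) ∣ 3 * ((mult F (a, b) : ℤ) - mult F (a, F a)) + 1 - 3 * 2 ^ (n - 1) := by
      rcases h with h | ⟨h, h'⟩
      · exact (dvd_pow_self 2 (by omega)).trans h1
      · refine (dvd_pow_self 2 (by omega)).trans (h2 ?_)
        rcases Nat.even_or_odd n with ⟨k, hk⟩ | ho
        · right; omega
        · exact .inl ho
    have h4 : (2 : ℤ) ∣ 2 ^ (n - 1) := dvd_pow_self 2 (by omega)
    rw [Nat.odd_iff]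
    omega
  refine ⟨A, fun n m hm => ⟨fun h => ?_, B1 n m hm⟩, fun n m hn => ⟨fun h => ?_, fun h => ?_⟩⟩
  · by_contra hc
    have h01 : n ≤ 1 ∨ (1 ≤ n ∧ (n < m ∨ (n = 2 ∧ m = 2))) := by omega
    rcases h01 with h1 | ⟨h1, h2⟩
    · have hz : ∀ p, mult (fun _ : V n => (0 : V m)) p = 0 := fun p => by
        have hcard : (univ.image (fun x : V n => (x, (0 : V m)))).card < 3 := by
          refine card_image_le.trans_lt ?_
          have : (univ : Finset (V n)).card = 2 ^ n := by simp
          rw [this]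
          interval_cases n <;> norm_num
        rw [mult, powersetCard_eq_empty.2 hcard]; simp
      have := h (fun _ => 0) (quad _ (by simp) rfl) 0 (Pi.single ⟨0, hm⟩ 1) (by
        intro c
        have := congrFun c ⟨0, hm⟩
        simp at this)
      rw [hz, hz] at this
      exact absurd this (by decide)
    · obtain ⟨F, f1, f2, b, hb, hb'⟩ := ex1 n m h1 h2
      have := h F f2 0 b hb
      rw [hb', apn_mult f1] at this
      exact absurd this (by decide)
  · by_contra hc
    obtain ⟨F, f1, f2, b, hb, hb'⟩ := ex1 n m (by omega) (by omega)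
    have := h F f1 f2 0 b hb
    rw [hb'] at this
    exact absurd this (by decide)
  · intro F f1 f2 a b hb
    have hm : 1 ≤ m := by
      by_contra hc
      obtain rfl : m = 0 := by omega
      exact hb (Subsingleton.elim _ _)
    have := B1 n m hm (by omega) F f2 a b hb
    rwa [apn_mult f1, add_zero] at this

end Pool.Agent.Results.MP_b298ef_co.ParityLaw
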